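import Mathlib
import Pool.Agent.Y264.CA.Fin
import Pool.Agent.Y264.CA.Sharp

/-!
# Circle integrals of order `o(r ^ 2)` outside a set of sigma-finite length

Question 2 asks whether a continuous `f` with `I_f(z, r) = o(r ^ 2)` at EVERY point `z` of a domain
is analytic.  The theorem below answers it in a stronger form:

* the condition may fail on any exceptional set which is a countable union of sets of finite
  one-dimensional Hausdorff measure (so Besicovitch's theorem on removable sets of sigma-finite
  length holds for the circular areal derivative);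
* outside this set only the averages `mean f z r = r ^ (-2) ∫_0^r I_f(z, s) / s ds` matter, and
  only four one sided conditions along sequences of radii depending on `z` are needed:
  `limsup Re ≥ 0 ≥ liminf Re` and `limsup Im ≥ 0 ≥ liminf Im` as `r → 0`;
* the size of the exceptional set is sharp among unions of vertical lines over a closed set:
  for closed `C ⊆ ℝ` every continuous `f` whose small circle integrals vanish at every point `z`
  with `Re z ∉ C` (hypothesis (i)) is entire if and only if `C` is countable.

Proof: the potential of (a localisation of) `f` has `o(r)` uniform defect of its circle means, and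
a barrier is built from the coverings of the exceptional set: the sum of the potentials
`- m log max (|z - x|, ρ)` over the discs of the coverings, with masses `m` which tend to zero
compared with the radii `ρ`, but slower than the modulus of continuity.
-/

open Complex Filter Metric Real Set Topology MeasureTheory
open scoped ENNReal

namespace Pool.Agent.Results.MP_be4214_an.SigmaFiniteLength

open Pool.Agent.Y264.CA

/-- **Main theorem.** -/
theorem result :
    -- (1) hypothesis (ii) outside a set of sigma-finite length
    (∀ D : Set ℂ, IsOpen D → ∀ f : ℂ → ℂ, ContinuousOn f D →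
      ∀ T : ℕ → Set ℂ, (∀ k, μH[1] (T k) < ⊤) →
      (∀ z ∈ D, (∀ k, z ∉ T k) →
        Tendsto (fun r : ℝ => (∮ ζ in C(z, r), f ζ) / (r : ℂ) ^ 2) (𝓝[>] 0) (𝓝 0)) →
      DifferentiableOn ℂ f D) ∧
    -- (2) averaged one sided conditions outside a set of sigma-finite length
    (∀ D : Set ℂ, IsOpen D → ∀ f : ℂ → ℂ, ContinuousOn f D →
      ∀ T : ℕ → Set ℂ, (∀ k, μH[1] (T k) < ⊤) →
      (∀ z ∈ D, (∀ k, z ∉ T k) → ∀ η : ℝ, 0 < η →
        (∃ᶠ r in 𝓝[>] (0 : ℝ), -η < (mean f z r).re) ∧
        (∃ᶠ r in 𝓝[>] (0 : ℝ), (mean f z r).re < η) ∧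
        (∃ᶠ r in 𝓝[>] (0 : ℝ), -η < (mean f z r).im) ∧
        (∃ᶠ r in 𝓝[>] (0 : ℝ), (mean f z r).im < η)) →
      DifferentiableOn ℂ f D) ∧
    -- (3) sharpness, even for hypothesis (i)
    (∀ C : Set ℝ, IsClosed C →
      ((∀ f : ℂ → ℂ, Continuous f →
        (∀ z : ℂ, z.re ∉ C → ∃ r0 > 0, ∀ r, 0 < r → r ≤ r0 → (∮ ζ in C(z, r), f ζ) = 0) →
        Differentiable ℂ f) ↔ C.Countable)) := by
  refine ⟨?_, ?_, ?_⟩
  · intro D hD f hf T hT h
    exact main1 D hD f hf T hT fun z hz hzT => cond_of_tendsto D hD f hf z hz (h z hz hzT)
  · intro D hD f hf T hT h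
    exact main1 D hD f hf T hT fun z hz hzT => h z hz hzT
  · intro C hC
    constructor
    · intro h
      by_contra hunc
      obtain ⟨f, hf, hz, hnd⟩ := sharp C hC hunc
      exact hnd (h f hf hz)
    · intro hcount f hf hz
      obtain ⟨T, hT, hTC⟩ := lines C hcount
      rw [← differentiableOn_univ]
      apply main1 univ isOpen_univ f hf.continuousOn T hT
      intro z _ hzT
      apply cond_of_tendsto univ isOpen_univ f hf.continuousOn z (mem_univ z)
      obtain ⟨r0, hr0, hr⟩ := hz z (hTC z hzT)
      apply tendsto_const_nhds.congr'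
      filter_upwards [Ioo_mem_nhdsGT hr0] with r hr1
      rw [hr r hr1.1 hr1.2.le, zero_div]

end Pool.Agent.Results.MP_be4214_an.SigmaFiniteLength
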